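import Pool.Agent.W_f569db_zs.Tri

set_option autoImplicit false

/-!
# Families of subspaces stable under a perfect system

`Q.act v W`: the span of the vectors `f y`, `f ∈ P s v`, `y ∈ W`.

If all the spaces `N` of the system are zero, and `W` is stable under `P s s`, then adding to `W` the
vectors `f y`, `f ∈ P s s`, adds to `Q.act v W` a space of dimension `dim (P s v) e`, where `e` is an
idempotent of `P s s` which does not depend on `v`.
-/

noncomputable section

namespace ZS

open Matrix Module ZO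

set_option linter.unusedSectionVars false

variable {α : Type} [Fintype α] [DecidableEq α] {K : Type*} [Field K]

namespace SSys

variable (Q : SSys α K)

/-- The system is perfect: there are no numerically trivial classes. -/
def Perf : Prop :=
  ∀ (D : Type) [Fintype D] [DecidableEq D] (d : Shp D), Q.N Shp.e d = ⊥

variable {S S' T : Type} [Fintype S] [DecidableEq S] [Fintype S'] [DecidableEq S']
  [Fintype T] [DecidableEq T] {s : Shp S} {s' : Shp S'}

variable {Q} in
theorem Perf.N_bot (h : Q.Perf) (s : Shp S) (s' : Shp S') : Q.N s s' = ⊥ := by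
  rw [eq_bot_iff]
  intro A hA
  have h1 : A * pm α K (Equiv.sumEmpty S Empty) ∈ Q.N (s.p Shp.e) s' :=
    Q.N_mul_right hA (Q.runit_mem s)
  rw [← Q.map_bnd_N s Shp.e s', h _ (s.p s'), Submodule.map_bot, Submodule.mem_bot] at h1
  rw [Submodule.mem_bot]
  have h2 : pm α K (Equiv.sumEmpty S Empty) * pm α K (Equiv.sumEmpty S Empty).symm =
      (1 : Matrix (S → α) (S → α) K) := by
    have := pm_symm_mul (α := α) (K := K) (Equiv.sumEmpty S Empty).symm
    rwa [Equiv.symm_symm] at this
  calc A = A * pm α K (Equiv.sumEmpty S Empty) * pm α K (Equiv.sumEmpty S Empty).symm := by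
        rw [Matrix.mul_assoc, h2, Matrix.mul_one]
    _ = 0 := by rw [h1, Matrix.zero_mul]

variable {Q} in
theorem Perf.a_eq (h : Q.Perf) (s : Shp S) (s' : Shp S') : Q.a s s' = finrank K (Q.P s s') := by
  unfold a
  rw [h.N_bot s s', finrank_bot, Nat.cast_zero, sub_zero]

/-- The span of the vectors `f y`, `f ∈ P s v`, `y ∈ W`. -/
def act (s : Shp S) (v : Shp T) (W : Submodule K (Matrix (S → α) (Empty → α) K)) :
    Submodule K (Matrix (T → α) (Empty → α) K) :=
  Submodule.span K {x | ∃ f ∈ Q.P s v, ∃ y ∈ W, x = f * y}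

/-- The subspace `W` is stable under `P s s`. -/
def Stb (s : Shp S) (W : Submodule K (Matrix (S → α) (Empty → α) K)) : Prop :=
  ∀ f ∈ Q.P s s, ∀ y ∈ W, f * y ∈ W

/-- `W + P y` -/
def addv (s : Shp S) (W : Submodule K (Matrix (S → α) (Empty → α) K))
    (y : Matrix (S → α) (Empty → α) K) : Submodule K (Matrix (S → α) (Empty → α) K) :=
  W ⊔ (Q.P s s).map (sand (1 : Matrix (S → α) (S → α) K) y)

variable {Q}

theorem mul_mem_act {v : Shp T} {W : Submodule K (Matrix (S → α) (Empty → α) K)}
    {f : Matrix (T → α) (S → α) K} (hf : f ∈ Q.P s v) {y : Matrix (S → α) (Empty → α) K}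
    (hy : y ∈ W) : f * y ∈ Q.act s v W :=
  Submodule.subset_span ⟨f, hf, y, hy, rfl⟩

theorem act_mono {v : Shp T} {W W' : Submodule K (Matrix (S → α) (Empty → α) K)} (h : W ≤ W') :
    Q.act s v W ≤ Q.act s v W' := by
  unfold act
  rw [Submodule.span_le]
  rintro _ ⟨f, hf, y, hy, rfl⟩
  exact mul_mem_act hf (h hy)

theorem mul_act {U : Type} [Fintype U] [DecidableEq U] {u : Shp U} {v : Shp T}
    {W : Submodule K (Matrix (S → α) (Empty → α) K)} {g : Matrix (U → α) (T → α) K}
    (hg : g ∈ Q.P v u) {x : Matrix (T → α) (Empty → α) K} (hx : x ∈ Q.act s v W) :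
    g * x ∈ Q.act s u W := by
  unfold act at hx
  induction hx using Submodule.span_induction with
  | mem x hx =>
    obtain ⟨f, hf, y, hy, rfl⟩ := hx
    rw [← Matrix.mul_assoc]
    exact mul_mem_act (Q.mul_mem hg hf) hy
  | zero => rw [Matrix.mul_zero]; exact Submodule.zero_mem _
  | add x y _ _ hx hy => rw [Matrix.mul_add]; exact Submodule.add_mem _ hx hy
  | smul c x _ hx => rw [Matrix.mul_smul]; exact Submodule.smul_mem _ c hx

theorem act_self {W : Submodule K (Matrix (S → α) (Empty → α) K)} (hW : Q.Stb s W) :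
    Q.act s s W = W := by
  apply le_antisymm
  · unfold act
    rw [Submodule.span_le]
    rintro _ ⟨f, hf, y, hy, rfl⟩
    exact hW f hf y hy
  · intro y hy
    have h1 := mul_mem_act (v := s) (Q.one_mem s) hy
    rwa [Matrix.one_mul] at h1

theorem act_bot {v : Shp T} : Q.act s v ⊥ = ⊥ := by
  rw [eq_bot_iff]
  unfold act
  rw [Submodule.span_le]
  rintro _ ⟨f, _, y, hy, rfl⟩
  rw [Submodule.mem_bot] at hy
  subst hy
  rw [Matrix.mul_zero]
  exact Submodule.zero_mem _

theorem stb_addv {W : Submodule K (Matrix (S → α) (Empty → α) K)} (hW : Q.Stb s W)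
    (y : Matrix (S → α) (Empty → α) K) : Q.Stb s (Q.addv s W y) := by
  intro f hf x hx
  obtain ⟨w, hw, z, hz, rfl⟩ := Submodule.mem_sup.1 hx
  obtain ⟨g, hg, rfl⟩ := hz
  rw [Matrix.mul_add]
  refine Submodule.add_mem_sup (hW f hf w hw) ⟨f * g, Q.mul_mem hf hg, ?_⟩
  rw [sand_apply, sand_apply, Matrix.one_mul, Matrix.one_mul, Matrix.mul_assoc]

theorem mem_addv {W : Submodule K (Matrix (S → α) (Empty → α) K)}
    (y : Matrix (S → α) (Empty → α) K) : y ∈ Q.addv s W y := by
  refine Submodule.mem_sup_right ⟨1, Q.one_mem s, ?_⟩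
  rw [sand_apply, Matrix.one_mul, Matrix.one_mul]

theorem le_addv {W : Submodule K (Matrix (S → α) (Empty → α) K)}
    (y : Matrix (S → α) (Empty → α) K) : W ≤ Q.addv s W y := le_sup_left

theorem addv_le {W W' : Submodule K (Matrix (S → α) (Empty → α) K)} (h : W ≤ W')
    (hW' : Q.Stb s W') {y : Matrix (S → α) (Empty → α) K} (hy : y ∈ W') :
    Q.addv s W y ≤ W' := by
  refine sup_le h ?_
  rintro _ ⟨f, hf, rfl⟩
  rw [sand_apply, Matrix.one_mul]
  exact hW' f hf y hy

/-- `P(s,v) (W + P y) = P(s,v) W + P(s,v) y` -/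
theorem act_addv {v : Shp T} {W : Submodule K (Matrix (S → α) (Empty → α) K)}
    (y : Matrix (S → α) (Empty → α) K) :
    Q.act s v (Q.addv s W y) =
      Q.act s v W ⊔ (Q.P s v).map (sand (1 : Matrix (T → α) (T → α) K) y) := by
  apply le_antisymm
  · conv_lhs => unfold act
    rw [Submodule.span_le]
    rintro _ ⟨f, hf, x, hx, rfl⟩
    obtain ⟨w, hw, z, hz, rfl⟩ := Submodule.mem_sup.1 hx
    obtain ⟨g, hg, rfl⟩ := hz
    rw [Matrix.mul_add]
    refine Submodule.add_mem_sup (mul_mem_act hf hw) ⟨f * g, Q.mul_mem hf hg, ?_⟩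
    rw [sand_apply, sand_apply, Matrix.one_mul, Matrix.one_mul, Matrix.mul_assoc]
  · refine sup_le (act_mono (le_addv y)) ?_
    rintro _ ⟨f, hf, rfl⟩
    rw [sand_apply, Matrix.one_mul]
    exact mul_mem_act hf (mem_addv y)

/-- One step: the dimension of `P(s,v) (W + P y)`. -/
theorem step [CharZero K] (hQ : Q.Perf) {W : Submodule K (Matrix (S → α) (Empty → α) K)} (hW : Q.Stb s W)
    (y : Matrix (S → α) (Empty → α) K) :
    ∃ e ∈ Q.P s s, e * e = e ∧ (y ∉ W → e ≠ 0) ∧
      ∀ (T : Type) [Fintype T] [DecidableEq T] (v : Shp T),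
        finrank K (Q.act s v (Q.addv s W y)) = finrank K (Q.act s v W) +
          finrank K ((Q.P s v).map (sand (1 : Matrix (T → α) (T → α) K) e)) := by
  let L : Submodule K (Matrix (S → α) (S → α) K) :=
    { carrier := {f | f ∈ Q.P s s ∧ f * y ∈ W}
      add_mem' := by
        rintro a b ⟨h1, h2⟩ ⟨h3, h4⟩
        refine ⟨add_mem h1 h3, ?_⟩
        rw [Matrix.add_mul]
        exact add_mem h2 h4
      zero_mem' := ⟨zero_mem _, by rw [Matrix.zero_mul]; exact zero_mem _⟩
      smul_mem' := by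
        rintro c a ⟨h1, h2⟩
        refine ⟨Submodule.smul_mem _ c h1, ?_⟩
        rw [Matrix.smul_mul]
        exact Submodule.smul_mem _ c h2 }
  have hrad : radE (dg Q.ε S) (Q.alg s) = ⊥ := by
    rw [Q.rad_alg]
    exact hQ.N_bot s s
  obtain ⟨q, hq, hqq, hL, l, hl, hql⟩ := left_idemE (Q.alg s) (Q.alg_even s)
    (by
      intro x hx
      rw [hrad, Submodule.mem_bot] at hx
      rw [hx]
      exact IsNilpotent.zero) L
    (fun f hf => hf.1)
    (fun x hx f hf => ⟨Q.mul_mem hx hf.1, by rw [Matrix.mul_assoc]; exact hW x hx _ hf.2⟩)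
  rw [hrad, Submodule.mem_bot, sub_eq_zero] at hql
  have hqL : q * y ∈ W := by
    rw [hql]
    exact hl.2
  have hLq : ∀ f, f ∈ Q.P s s → f * y ∈ W → f = f * q := by
    intro f hf hfy
    have h1 := hL f ⟨hf, hfy⟩
    rw [hrad, Submodule.mem_bot, sub_eq_zero] at h1
    exact h1
  have hqP : q ∈ Q.P s s := hq
  refine ⟨1 - q, sub_mem (Q.one_mem s) hqP, ?_, ?_, ?_⟩
  · rw [Matrix.mul_sub, Matrix.mul_one, Matrix.sub_mul, Matrix.one_mul, hqq, sub_self, sub_zero]
  · intro hy h0
    apply hy
    have h1 : q = 1 := (sub_eq_zero.1 h0).symm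
    rw [h1, Matrix.one_mul] at hqL
    exact hqL
  · intro T _ _ v
    rw [act_addv]
    -- the two kernels agree
    have key : ∀ f ∈ Q.P s v, f * y ∈ Q.act s v W ↔ f * (1 - q) = 0 := by
      intro f hf
      constructor
      · intro h
        have h1 : f * (1 - q) ∈ Q.N s v := by
          rw [Q.mem_N']
          refine ⟨Q.mul_mem hf (sub_mem (Q.one_mem s) hqP), fun B hB => ?_⟩
          have h2 : (B * f) * y ∈ W := by
            rw [← act_self hW, Matrix.mul_assoc]
            exact mul_act hB h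
          have h3 := hLq (B * f) (Q.mul_mem hB hf) h2
          have h4 : B * (f * (1 - q)) = 0 := by
            rw [← Matrix.mul_assoc, Matrix.mul_sub, Matrix.mul_one, ← h3, sub_self]
          rw [h4, Matrix.mul_zero, Matrix.trace_zero]
        rw [hQ.N_bot s v, Submodule.mem_bot] at h1
        exact h1
      · intro h
        have h1 : f = f * q := by
          rw [Matrix.mul_sub, Matrix.mul_one, sub_eq_zero] at h
          exact h
        rw [h1, Matrix.mul_assoc]
        exact mul_mem_act hf hqL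
    set M := (Q.P s v).map (sand (1 : Matrix (T → α) (T → α) K) y) with hM
    have h1 := Submodule.finrank_sup_add_finrank_inf_eq (Q.act s v W) M
    have h2 := ann_rank (sand (1 : Matrix (T → α) (T → α) K) y) (Q.P s v)
    have h3 := ann_rank (sand (1 : Matrix (T → α) (T → α) K) (1 - q)) (Q.P s v)
    have h4 := ann_rank ((sand (1 : Matrix (T → α) (T → α) K) y))
      (Q.P s v ⊓ LinearMap.ker (sand (1 : Matrix (T → α) (T → α) K) (1 - q)))
    have h5 : (Q.P s v ⊓ LinearMap.ker (sand (1 : Matrix (T → α) (T → α) K) (1 - q))).map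
        (sand (1 : Matrix (T → α) (T → α) K) y) = Q.act s v W ⊓ M := by
      apply le_antisymm
      · rintro _ ⟨f, ⟨hf, hf'⟩, rfl⟩
        refine ⟨?_, ⟨f, hf, rfl⟩⟩
        rw [sand_apply, Matrix.one_mul]
        rw [SetLike.mem_coe, LinearMap.mem_ker, sand_apply, Matrix.one_mul] at hf'
        exact (key f hf).2 hf'
      · rintro _ ⟨h, ⟨f, hf, rfl⟩⟩
        rw [SetLike.mem_coe, sand_apply, Matrix.one_mul] at h
        refine ⟨f, ⟨hf, ?_⟩, rfl⟩
        rw [SetLike.mem_coe, LinearMap.mem_ker, sand_apply, Matrix.one_mul]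
        exact (key f hf).1 h
    have h6 : Q.P s v ⊓ LinearMap.ker (sand (1 : Matrix (T → α) (T → α) K) (1 - q)) ⊓
        LinearMap.ker (sand (1 : Matrix (T → α) (T → α) K) y) =
        Q.P s v ⊓ LinearMap.ker (sand (1 : Matrix (T → α) (T → α) K) y) := by
      apply le_antisymm
      · rintro f ⟨⟨hf, _⟩, hf'⟩
        exact ⟨hf, hf'⟩
      · rintro f ⟨hf, hf'⟩
        refine ⟨⟨hf, ?_⟩, hf'⟩
        rw [SetLike.mem_coe, LinearMap.mem_ker, sand_apply, Matrix.one_mul] at hf' ⊢
        refine (key f hf).1 ?_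
        rw [hf']
        exact Submodule.zero_mem _
    rw [h5, h6] at h4
    rw [← hM] at h2
    omega

end SSys

end ZS
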