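import Pool.Agent.W_dens_h64.Dens
import Pool.Agent.W_f569db_zs.SLaw

set_option autoImplicit false

/-!
# The density law for families of classes stable under algebraic correspondences
-/

noncomputable section

namespace ZS

open AlgebraicGeometry CategoryTheory MonoidalCategory ZO Matrix Filter Topology
open Pool.Agent.WeilH_h6 Pool.Agent.WeilH_h6.VarClass

universe u v w

variable {k : Type u} [Field k] {𝒱 : VarClass k} {K : Type v} [Field K] [CharZero K]
  (W : Weil.{u, v, w} 𝒱 K)

/-- A family of subspaces of the cohomology spaces which contains the algebraic classes and is stable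
under algebraic correspondences. -/
structure WFam where
  /-- the subspace of `H(Y)` -/
  B : ∀ Y : 𝒱.Obj, Submodule K (W.H Y)
  alg_le : ∀ Y, W.algSpan Y ≤ B Y
  map_mem : ∀ {Y Z : 𝒱.Obj} {φ : W.H Y →ₗ[K] W.H Z} {y : W.H Y},
    φ ∈ W.algHom Y Z → y ∈ B Y → φ y ∈ B Z

variable {W} (F : WFam W) {X : 𝒱.Obj} {α : Type} [Fintype α] [DecidableEq α]
  (bs : Module.Basis α K (W.H X)) (π : α → ℕ)
  (hπ : ∀ a, W.par X (bs a) = ((-1 : K) ^ π a) • bs a)

theorem mt_mul_vM {S S' : Type} [Fintype S] [DecidableEq S] [Fintype S'] [DecidableEq S']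
    (s : Shp S) (s' : Shp S') (φ : W.H (ob X s) →ₗ[K] W.H (ob X s')) (a : W.H (ob X s)) :
    mt W bs s s' φ * vM W bs s a = vM W bs s' (φ a) := by
  rw [vM_apply, vM_apply, ← mt_comp]
  congr 1
  refine LinearMap.ext fun x => ?_
  change φ (W.tr Obj.pt x • a) = W.tr Obj.pt x • φ a
  rw [map_smul]

/-- The family in coordinates. -/
def WFam.fam : Fam (sysS W bs π hπ) where
  B := fun s => (F.B (ob X s)).map (vM W bs s)
  le := by
    intro S _ _ s
    rw [sysS_P, ← map_vM]
    exact Submodule.map_mono (F.alg_le _)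
  mul_mem := by
    intro S S' _ _ _ _ s s' A y hA hy
    obtain ⟨φ, hφ, rfl⟩ := hA
    obtain ⟨a, ha, rfl⟩ := hy
    rw [mt_mul_vM]
    exact Submodule.mem_map_of_mem (F.map_mem hφ ha)

theorem WFam.finrank_fam {S : Type} (s : Shp S) :
    Module.finrank K ((F.fam bs π hπ).B s) = Module.finrank K (F.B (ob X s)) :=
  (LinearEquiv.finrank_eq (Submodule.equivMapOfInjective _ (vM_injective W bs s) _)).symm

theorem homRank_le (Y : 𝒱.Obj) : homRank W Y ≤ Module.finrank K (F.B Y) := by
  have : Module.Finite K (W.H Y) := W.axFinite Y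
  exact Submodule.finrank_mono (F.alg_le Y)

/-- If `D` fails for some power, the ratio tends to infinity. -/
theorem tendsto_of_not_D {m : ℕ} (h : ¬ W.HomEqNum (X.pow m)) :
    Tendsto (fun n => (homRank W (X.pow n) : ℝ) / numRank W (X.pow n)) atTop atTop := by
  obtain ⟨b, bs, π, hπ⟩ := exists_par_basis W X
  have hne : Nonempty (Fin b) := law_nonempty W bs
  obtain ⟨u, v, hu, hv, hvu⟩ := exists_uv W bs π hπ
  have hA : ∀ n, 1 ≤ (numRank W (X.pow n) : ℝ) := by
    intro n
    have h1 : (sysS W bs π hπ).A n = (numRank W (X.pow n) : ℝ) := by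
      rw [A_sysS, numRank_eq]
    rw [← h1]
    exact (sysS W bs π hπ).one_le_A hu hv hvu n
  rcases ZS.law W X with h1 | h1 | h1
  · exact absurd (h1.1 m) h
  · obtain ⟨_, _, ⟨c, hc, h2⟩, _⟩ := h1
    have h3 : Tendsto (fun n : ℕ => c * Real.log ((n : ℝ) + 1)) atTop atTop := by
      refine Tendsto.const_mul_atTop hc (Real.tendsto_log_atTop.comp ?_)
      exact tendsto_atTop_add_const_right _ _ tendsto_natCast_atTop_atTop
    refine tendsto_atTop_mono' atTop ?_ h3
    filter_upwards [eventually_ge_atTop 1] with n hn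
    rw [le_div_iff₀ (lt_of_lt_of_le one_pos (hA n))]
    exact h2 n hn
  · obtain ⟨_, _, _, c, hc, C, hC, h2⟩ := h1
    have h3 : Tendsto (fun n : ℕ => Real.exp (c * n) / C) atTop atTop := by
      refine Tendsto.atTop_div_const hC (Real.tendsto_exp_atTop.comp ?_)
      exact Tendsto.const_mul_atTop hc tendsto_natCast_atTop_atTop
    refine tendsto_atTop_mono (fun n => ?_) h3
    rw [le_div_iff₀ (lt_of_lt_of_le one_pos (hA n)), div_mul_eq_mul_div, div_le_iff₀ hC, mul_comm _ C]
    exact h2 n

/-- If `D` fails for some power, the ratio tends to infinity. -/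
theorem tendsto_of_not_D' {m : ℕ} (h : ¬ W.HomEqNum (X.pow m)) :
    Tendsto (fun n => (Module.finrank K (F.B (X.pow (2 * n))) : ℝ) /
        numRank W (X.pow (2 * n))) atTop atTop := by
  have h2 := tendsto_of_not_D h
  have h3 : Tendsto (fun n : ℕ => 2 * n) atTop atTop :=
    tendsto_atTop_mono (fun n => (by change n ≤ 2 * n; omega)) tendsto_id
  refine tendsto_atTop_mono (fun n => ?_) (h2.comp h3)
  change (homRank W (X.pow (2 * n)) : ℝ) / numRank W (X.pow (2 * n)) ≤ _
  refine div_le_div_of_nonneg_right ?_ (Nat.cast_nonneg _)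
  exact_mod_cast homRank_le F (X.pow (2 * n))

/-- The density law. -/
theorem WFam.density (X : 𝒱.Obj) :
    ((∃ k : ℕ, 1 ≤ k ∧ Tendsto (fun n => (Module.finrank K (F.B (X.pow (2 * n))) : ℝ) /
        numRank W (X.pow (2 * n))) atTop (𝓝 (k : ℝ))) ∨
      Tendsto (fun n => (Module.finrank K (F.B (X.pow (2 * n))) : ℝ) /
        numRank W (X.pow (2 * n))) atTop atTop) ∧
      (Tendsto (fun n => (Module.finrank K (F.B (X.pow (2 * n))) : ℝ) /
        numRank W (X.pow (2 * n))) atTop (𝓝 1) ↔
        ∀ m, F.B (X.pow m) = W.algSpan (X.pow m) ∧ W.HomEqNum (X.pow m)) := by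
  obtain ⟨b, bs, π, hπ⟩ := exists_par_basis W X
  have hne : Nonempty (Fin b) := law_nonempty W bs
  obtain ⟨u, v, hu, hv, hvu⟩ := exists_uv W bs π hπ
  have hA : ∀ n, (sysS W bs π hπ).A n = (numRank W (X.pow n) : ℝ) := by
    intro n
    rw [A_sysS, numRank_eq]
  have hB : ∀ n, (Module.finrank K ((F.fam bs π hπ).B (lin n)) : ℝ) =
      Module.finrank K (F.B (X.pow n)) := by
    intro n
    rw [F.finrank_fam bs π hπ, ob_lin]
  have hpos : ∀ n, (0 : ℝ) < numRank W (X.pow n) := by
    intro n
    rw [← hA]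
    exact lt_of_lt_of_le one_pos ((sysS W bs π hπ).one_le_A hu hv hvu n)
  by_cases hD : ∀ m, W.HomEqNum (X.pow m)
  · -- the system is perfect
    have hperf : (sysS W bs π hπ).Perf := by
      intro D _ _ d
      obtain ⟨e, h1, h2⟩ := (sysS W bs π hπ).Pl_lin d
      have h3 : (sysS W bs π hπ).N Shp.e (lin (Fintype.card D)) = ⊥ := by
        rw [← map_vM_N, nt_eq_zero W (X := ob X (lin (Fintype.card D))) (by
          rw [ob_lin]
          exact hD _), Submodule.map_bot]
      rw [eq_bot_iff]
      intro x hx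
      have h4 := (sysS W bs π hπ).N_mul_left h1 hx
      rw [h3, Submodule.mem_bot] at h4
      rw [Submodule.mem_bot]
      calc x = pm (Fin b) K e.symm * (pm (Fin b) K e * x) := by
            rw [← Matrix.mul_assoc, pm_symm_mul, Matrix.one_mul]
        _ = 0 := by rw [h4, Matrix.mul_zero]
    have key := hperf.density (sysS_hasPerm W bs π hπ) hu hv hvu (F.fam bs π hπ)
    simp only [hA, hB] at key
    refine ⟨key.1, fun h => ?_, fun h => ?_⟩
    · have h1 := key.2 h
      have h2 : ∀ m, Module.finrank K ((F.fam bs π hπ).B (lin (2 * m))) ≤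
          Module.finrank K ((sysS W bs π hπ).P Shp.e (lin (2 * m))) := by
        intro m
        have h3 := h1 m
        rw [← hA, hperf.A_eq_h, ← hB] at h3
        unfold SSys.h at h3
        exact le_of_eq (by exact_mod_cast h3)
      intro m
      refine ⟨?_, hD m⟩
      have h4 := SSys.Fam_eq_of_even (F.fam bs π hπ) hu hv hvu h2 m
      rw [sysS_P, ← map_vM] at h4
      have h5 : F.B (ob X (lin m)) = W.algSpan (ob X (lin m)) :=
        Submodule.map_injective_of_injective (vM_injective W bs (lin m)) h4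
      rw [ob_lin] at h5
      exact h5
    · have h1 : ∀ n, (Module.finrank K (F.B (X.pow (2 * n))) : ℝ) / numRank W (X.pow (2 * n)) = 1 := by
        intro n
        rw [(h (2 * n)).1]
        have h2 := rank_eq_of_homEqNum W (h (2 * n)).2
        unfold homRank at h2
        rw [h2]
        exact div_self (hpos _).ne'
      simp only [h1]
      exact tendsto_const_nhds
  · push Not at hD
    obtain ⟨m, hm⟩ := hD
    have h1 := tendsto_of_not_D' F hm
    refine ⟨Or.inr h1, fun h => ?_, fun h => absurd (h m).2 hm⟩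
    exact absurd h (not_tendsto_nhds_of_tendsto_atTop h1 1)

end ZS
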