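import Pool.Agent.W_dens_h64.Act

set_option autoImplicit false

/-!
# The dimension of `P(s, t ⊗ t) W` is asymptotically an integer multiple of `a(t, t)`
-/

noncomputable section

namespace ZS

open Matrix Module ZO

set_option linter.unusedSectionVars false

variable {α : Type} [Fintype α] [DecidableEq α] {K : Type*} [Field K] [CharZero K]

namespace SSys

variable {Q : SSys α K} {S : Type} [Fintype S] [DecidableEq S] {s : Shp S}

/-- In a perfect system `dim (P s (t t)) e = pT t s e` -/
theorem Perf.finrank_map (hQ : Q.Perf) {T : Type} [Fintype T] [DecidableEq T] (t : Shp T)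
    {e : Matrix (S → α) (S → α) K} (he : e ∈ Q.P s s) :
    (finrank K ((Q.P s (t.p t)).map (sand (1 : Matrix (T ⊕ T → α) (T ⊕ T → α) K) e)) : ℝ) =
      Q.pT t s e := by
  rw [← Q.cod_eq_pT t he]
  unfold cod
  rw [hQ.N_bot s (t.p t), Submodule.map_bot, finrank_bot, Nat.cast_zero, sub_zero]

/-- additivity for the idempotents `e` and `1 - e` -/
theorem finrank_map_add {T : Type} [Fintype T] [DecidableEq T] (v : Shp T)
    {e : Matrix (S → α) (S → α) K} (he : e ∈ Q.P s s) (hee : e * e = e) :
    finrank K ((Q.P s v).map (sand (1 : Matrix (T → α) (T → α) K) e)) +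
      finrank K ((Q.P s v).map (sand (1 : Matrix (T → α) (T → α) K) (1 - e))) =
        finrank K (Q.P s v) := by
  have h1 := ann_rank (sand (1 : Matrix (T → α) (T → α) K) e) (Q.P s v)
  have h2 : (Q.P s v).map (sand (1 : Matrix (T → α) (T → α) K) (1 - e)) =
      Q.P s v ⊓ LinearMap.ker (sand (1 : Matrix (T → α) (T → α) K) e) := by
    ext x
    constructor
    · rintro ⟨f, hf, rfl⟩
      refine ⟨?_, ?_⟩
      · rw [sand_apply, Matrix.one_mul]
        exact Q.mul_mem hf (sub_mem (Q.one_mem s) he)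
      · rw [SetLike.mem_coe, LinearMap.mem_ker, sand_apply, sand_apply, Matrix.one_mul,
          Matrix.one_mul, Matrix.mul_assoc, Matrix.sub_mul, Matrix.one_mul, hee, sub_self,
          Matrix.mul_zero]
    · rintro ⟨hx, hx'⟩
      rw [SetLike.mem_coe, LinearMap.mem_ker, sand_apply, Matrix.one_mul] at hx'
      refine ⟨x, hx, ?_⟩
      rw [sand_apply, Matrix.one_mul, Matrix.mul_sub, Matrix.mul_one, hx', sub_zero]
  rw [← h1, h2]

/-- the two bounds for one idempotent -/
theorem Perf.idem_bound (hQ : Q.Perf) {e : Matrix (S → α) (S → α) K} (he : e ∈ Q.P s s)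
    (hee : e * e = e) {T : Type} [Fintype T] [DecidableEq T] (t : Shp T) (hpos : 0 < Q.a t t) :
    (finrank K ((Q.P s (t.p t)).map (sand (1 : Matrix (T ⊕ T → α) (T ⊕ T → α) K) e)) : ℝ) ≤
      e.rank * Q.a t t ∧
    (e.rank : ℝ) * Q.a t t - ((Fintype.card α : ℝ) ^ (Fintype.card S) * Q.a t t -
      Q.A (Fintype.card S + 2 * Fintype.card T)) ≤
      finrank K ((Q.P s (t.p t)).map (sand (1 : Matrix (T ⊕ T → α) (T ⊕ T → α) K) e)) := by
  have he' : 1 - e ∈ Q.P s s := sub_mem (Q.one_mem s) he
  have hee' : (1 - e) * (1 - e) = 1 - e := by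
    rw [Matrix.mul_sub, Matrix.mul_one, Matrix.sub_mul, Matrix.one_mul, hee, sub_self, sub_zero]
  refine ⟨?_, ?_⟩
  · rw [hQ.finrank_map t he]
    exact Q.pT_le he hee hpos
  · have h1 := finrank_map_add (t.p t) he hee
    have h2 : (finrank K ((Q.P s (t.p t)).map
        (sand (1 : Matrix (T ⊕ T → α) (T ⊕ T → α) K) (1 - e))) : ℝ) ≤
        (1 - e).rank * Q.a t t := by
      rw [hQ.finrank_map t he']
      exact Q.pT_le he' hee' hpos
    have h3 : (finrank K (Q.P s (t.p t)) : ℝ) = Q.A (Fintype.card S + 2 * Fintype.card T) := by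
      rw [← hQ.a_eq, Q.a_eq_A s (t.p t), Fintype.card_sum, ← two_mul]
    have h4 : ((1 - e).rank : ℝ) = (Fintype.card α : ℝ) ^ (Fintype.card S) - e.rank := by
      have h5 : Matrix.trace (1 - e) = (((1 - e).rank : ℕ) : K) := trace_idem hee'
      rw [Matrix.trace_sub, Matrix.trace_one, trace_idem hee] at h5
      have h6 : (((1 - e).rank + e.rank : ℕ) : K) = ((Fintype.card (S → α) : ℕ) : K) := by
        rw [Nat.cast_add, ← h5, sub_add_cancel]
      have h7 : (1 - e).rank + e.rank = Fintype.card (S → α) := by exact_mod_cast h6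
      rw [Fintype.card_fun] at h7
      have h8 : (((1 - e).rank + e.rank : ℕ) : ℝ) =
          ((Fintype.card α ^ Fintype.card S : ℕ) : ℝ) := by rw [h7]
      push_cast at h8
      linarith
    rw [h4] at h2
    have h5 : (finrank K ((Q.P s (t.p t)).map
          (sand (1 : Matrix (T ⊕ T → α) (T ⊕ T → α) K) e)) : ℝ) +
        finrank K ((Q.P s (t.p t)).map
          (sand (1 : Matrix (T ⊕ T → α) (T ⊕ T → α) K) (1 - e))) =
        finrank K (Q.P s (t.p t)) := by
      exact_mod_cast h1
    rw [h3] at h5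
    nlinarith

/-- `dim P(s, t t) W` is, up to an error, an integer multiple of `a t t`, and at most this multiple. -/
def AInt (Q : SSys α K) (s : Shp S) (W : Submodule K (Matrix (S → α) (Empty → α) K)) : Prop :=
  ∃ r N : ℕ, ∀ (T : Type) [Fintype T] [DecidableEq T] (t : Shp T), 0 < Q.a t t →
    (finrank K (Q.act s (t.p t) W) : ℝ) ≤ r * Q.a t t ∧
    (r : ℝ) * Q.a t t - N * ((Fintype.card α : ℝ) ^ (Fintype.card S) * Q.a t t -
      Q.A (Fintype.card S + 2 * Fintype.card T)) ≤ finrank K (Q.act s (t.p t) W)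

theorem aint_bot : AInt Q s ⊥ := by
  refine ⟨0, 0, fun T _ _ t _ => ?_⟩
  rw [act_bot, finrank_bot]
  simp

theorem Perf.aint_addv (hQ : Q.Perf) {W : Submodule K (Matrix (S → α) (Empty → α) K)}
    (hW : Q.Stb s W) (h : AInt Q s W) (y : Matrix (S → α) (Empty → α) K) :
    AInt Q s (Q.addv s W y) := by
  obtain ⟨r, N, hr⟩ := h
  obtain ⟨e, he, hee, _, hs⟩ := step hQ hW y
  refine ⟨r + e.rank, N + 1, fun T _ _ t ht => ?_⟩
  obtain ⟨h1, h2⟩ := hr T t ht
  obtain ⟨h3, h4⟩ := hQ.idem_bound he hee t ht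
  rw [hs (T ⊕ T) (t.p t)]
  push_cast
  constructor
  · rw [add_mul]
    exact add_le_add h1 h3
  · linarith

theorem Perf.aint (hQ : Q.Perf) {W : Submodule K (Matrix (S → α) (Empty → α) K)}
    (hW : Q.Stb s W) : AInt Q s W := by
  -- induction on the codimension of a stable subspace with the property
  have key : ∀ n : ℕ, ∀ W₀ : Submodule K (Matrix (S → α) (Empty → α) K), W₀ ≤ W → Q.Stb s W₀ →
      AInt Q s W₀ → finrank K W = finrank K W₀ + n → AInt Q s W := by
    intro n
    induction n using Nat.strong_induction_on with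
    | _ n ih =>
      intro W₀ hle hst ha hn
      by_cases h : W₀ = W
      · rw [← h]
        exact ha
      · obtain ⟨y, hy, hy0⟩ := SetLike.exists_of_lt (lt_of_le_of_ne hle h)
        have h1 := addv_le hle hW hy
        have h2 : finrank K W₀ < finrank K (Q.addv s W₀ y) := by
          refine Submodule.finrank_lt_finrank_of_lt (lt_of_le_of_ne (le_addv y) ?_)
          intro h3
          apply hy0
          rw [h3]
          exact mem_addv y
        have h3 := Submodule.finrank_mono h1
        exact ih (finrank K W - finrank K (Q.addv s W₀ y)) (by omega) (Q.addv s W₀ y) h1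
          (stb_addv hst y) (hQ.aint_addv hst ha y) (by omega)
  refine key (finrank K W) ⊥ bot_le ?_ aint_bot ?_
  · intro f _ y hy
    rw [Submodule.mem_bot] at hy
    subst hy
    rw [Matrix.mul_zero]
    exact Submodule.zero_mem _
  · rw [finrank_bot, zero_add]

end SSys

end ZS
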