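import Mathlib

set_option autoImplicit false

/-!
# Real analysis: the limit is an integer or infinity
-/

namespace ZS

open Filter Topology

theorem lim_of_bounds (A x : ℕ → ℝ) (β : ℝ) (hA : ∀ m, 0 < A m) (hAx : ∀ m, A m ≤ x m)
    (hratio : ∀ (k : ℕ) (ε : ℝ), 0 < ε → ∃ M : ℕ, ∀ m ≥ M, β ^ k * A m - A (k + m) ≤ ε * A m)
    (r N : ℕ → ℕ) (hup : ∀ m, x m ≤ r m * A m)
    (hlo : ∀ k m, (r k : ℝ) * A m - N k * (β ^ k * A m - A (k + m)) ≤ x m) :
    ((∃ k : ℕ, 1 ≤ k ∧ Tendsto (fun m => x m / A m) atTop (𝓝 (k : ℝ))) ∨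
      Tendsto (fun m => x m / A m) atTop atTop) ∧
      (Tendsto (fun m => x m / A m) atTop (𝓝 1) → ∀ m, x m = A m) := by
  have hlow : ∀ (k : ℕ) (ε : ℝ), 0 < ε → ∀ᶠ m in atTop, (r k : ℝ) - ε ≤ x m / A m := by
    intro k ε hε
    obtain ⟨M, hM⟩ := hratio k (ε / (N k + 1)) (by positivity)
    filter_upwards [eventually_ge_atTop M] with m hm
    rw [le_div_iff₀ (hA m)]
    have h1 := hM m hm
    have h2 := hlo k m
    have h3 : (N k : ℝ) * (β ^ k * A m - A (k + m)) ≤ ε * A m := by
      have h4 : (0 : ℝ) ≤ N k := Nat.cast_nonneg _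
      have h5 : (N k : ℝ) * (β ^ k * A m - A (k + m)) ≤ N k * (ε / (N k + 1) * A m) :=
        mul_le_mul_of_nonneg_left h1 h4
      refine h5.trans ?_
      have h6 : (N k : ℝ) * (ε / (N k + 1) * A m) = (N k / (N k + 1)) * (ε * A m) := by ring
      rw [h6]
      have h7 : (N k : ℝ) / (N k + 1) ≤ 1 := by
        rw [div_le_one (by positivity)]
        linarith
      have h8 : 0 ≤ ε * A m := mul_nonneg hε.le (hA m).le
      calc (N k : ℝ) / (N k + 1) * (ε * A m) ≤ 1 * (ε * A m) := mul_le_mul_of_nonneg_right h7 h8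
        _ = ε * A m := one_mul _
    nlinarith
  have hupp : ∀ m, x m / A m ≤ r m := by
    intro m
    rw [div_le_iff₀ (hA m)]
    exact hup m
  have hr1 : ∀ m, 1 ≤ r m := by
    intro m
    by_contra h
    have h0 : r m = 0 := by omega
    have h1 := hup m
    have h2 := hAx m
    have h3 := hA m
    rw [h0, Nat.cast_zero, zero_mul] at h1
    linarith
  refine ⟨?_, ?_⟩
  · by_cases hb : ∃ C : ℕ, ∀ k, r k ≤ C
    · left
      obtain ⟨C, hC⟩ := hb
      -- the largest value
      obtain ⟨k₀, hk₀⟩ : ∃ k₀, ∀ k, r k ≤ r k₀ := by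
        have hfin : (Set.range r).Finite :=
          (Set.finite_Iic C).subset (by rintro _ ⟨k, rfl⟩; exact hC k)
        obtain ⟨a, ⟨k₀, rfl⟩, ha⟩ := Set.exists_max_image (Set.range r) id hfin ⟨r 0, 0, rfl⟩
        exact ⟨k₀, fun k => ha (r k) ⟨k, rfl⟩⟩
      refine ⟨r k₀, hr1 k₀, ?_⟩
      rw [tendsto_order]
      constructor
      · intro a ha
        filter_upwards [hlow k₀ ((r k₀ - a) / 2) (by linarith)] with m hm
        linarith
      · intro a ha
        filter_upwards with m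
        have h1 := hupp m
        have h2 : (r m : ℝ) ≤ r k₀ := by exact_mod_cast hk₀ m
        linarith
    · right
      push Not at hb
      rw [tendsto_atTop]
      intro c
      obtain ⟨C, hC⟩ := exists_nat_ge (c + 1)
      obtain ⟨k, hk⟩ := hb C
      filter_upwards [hlow k 1 one_pos] with m hm
      have h1 : (C : ℝ) < r k := by exact_mod_cast hk
      linarith
  · intro h m
    refine le_antisymm ?_ (hAx m)
    have h1 : (r m : ℝ) ≤ 1 := by
      refine le_of_forall_pos_le_add fun ε hε => ?_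
      have h2 := ge_of_tendsto h (hlow m ε hε)
      linarith
    calc x m ≤ r m * A m := hup m
      _ ≤ 1 * A m := mul_le_mul_of_nonneg_right h1 (hA m).le
      _ = A m := one_mul _

end ZS
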