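import Pool.Agent.W_dens_h64.Count
import Pool.Agent.W_dens_h64.Lim

set_option autoImplicit false

/-!
# The density law, abstract form, for perfect systems
-/

noncomputable section

namespace ZS

open Matrix Module ZO Filter Topology

set_option linter.unusedSectionVars false

variable {α : Type} [Fintype α] [DecidableEq α] {K : Type*} [Field K]

/-- A family of subspaces of the spaces `V^{⊗ s}` which contains the classes of the system and is
stable under the morphisms of the system. -/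
structure Fam (Q : SSys α K) where
  /-- the subspace of `V^{⊗ s}` -/
  B : {S : Type} → Shp S → Submodule K (Matrix (S → α) (Empty → α) K)
  le : ∀ {S : Type} [Fintype S] [DecidableEq S] (s : Shp S), Q.P Shp.e s ≤ B s
  mul_mem : ∀ {S S' : Type} [Fintype S] [DecidableEq S] [Fintype S'] [DecidableEq S']
    {s : Shp S} {s' : Shp S'} {A : Matrix (S' → α) (S → α) K} {y : Matrix (S → α) (Empty → α) K},
    A ∈ Q.P s s' → y ∈ B s → A * y ∈ B s'

namespace Fam

variable {Q : SSys α K} (F : Fam Q) {S T : Type} [Fintype S] [DecidableEq S] [Fintype T]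
  [DecidableEq T]

theorem finrank_le_of_Pl {s : Shp S} {t : Shp T} (h : Q.Pl s t) :
    finrank K (F.B s) ≤ finrank K (F.B t) := by
  obtain ⟨e, h1, _⟩ := h
  let φ : Matrix (S → α) (Empty → α) K →ₗ[K] Matrix (T → α) (Empty → α) K :=
    sand (pm α K e) (1 : Matrix (Empty → α) (Empty → α) K)
  have hφ : ∀ x, φ x = pm α K e * x := fun x => by
    change pm α K e * x * (1 : Matrix (Empty → α) (Empty → α) K) = _
    rw [Matrix.mul_one]
  have hinj : Function.Injective φ := by
    intro x y hxy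
    rw [hφ, hφ] at hxy
    have h2 : pm α K e.symm * pm α K e = (1 : Matrix (S → α) (S → α) K) := pm_symm_mul e
    calc x = pm α K e.symm * (pm α K e * x) := by rw [← Matrix.mul_assoc, h2, Matrix.one_mul]
      _ = y := by rw [hxy, ← Matrix.mul_assoc, h2, Matrix.one_mul]
  have hle : (F.B s).map φ ≤ F.B t := by
    rintro _ ⟨x, hx, rfl⟩
    rw [hφ]
    exact F.mul_mem h1 hx
  rw [LinearEquiv.finrank_eq (Submodule.equivMapOfInjective φ hinj (F.B s))]
  exact Submodule.finrank_mono hle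

theorem finrank_eq_of_Pl {s : Shp S} {t : Shp T} (h : Q.Pl s t) :
    finrank K (F.B s) = finrank K (F.B t) :=
  le_antisymm (F.finrank_le_of_Pl h) (F.finrank_le_of_Pl h.symm)

theorem stb (s : Shp S) : Q.Stb s (F.B s) := fun _ hf _ hy => F.mul_mem hf hy

theorem act_le (s : Shp S) (v : Shp T) : Q.act s v (F.B s) ≤ F.B v := by
  unfold SSys.act
  rw [Submodule.span_le]
  rintro _ ⟨f, hf, y, hy, rfl⟩
  exact F.mul_mem hf hy

theorem h_le (n : ℕ) : Q.h n ≤ finrank K (F.B (lin n)) := by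
  unfold SSys.h
  exact_mod_cast Submodule.finrank_mono (F.le (lin n))

end Fam

namespace SSys

variable [Nonempty α] [CharZero K] {Q : SSys α K}

/-- the ratio law -/
theorem ratio_law (hQ : Q.HasPerm) (hnil : ∀ M, Q.NilBelow M)
    {u : Matrix (Unit → α) (Empty → α) K} {v : Matrix (Empty → α) (Unit → α) K}
    (hu : u ∈ Q.P Shp.e Shp.o) (hv : v ∈ Q.P Shp.o Shp.e) (hvu : v * u = 1) (k : ℕ) {ε : ℝ}
    (hε : 0 < ε) : ∃ M : ℕ, ∀ m ≥ M,
      ((Fintype.card α : ℝ) ^ 2) ^ k * Q.A (2 * m) - Q.A (2 * (k + m)) ≤ ε * Q.A (2 * m) := by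
  have hb : (1 : ℝ) ≤ Fintype.card α := by exact_mod_cast (Fintype.card_pos (α := α))
  have hβ : (1 : ℝ) ≤ (Fintype.card α : ℝ) ^ 2 := one_le_pow₀ hb
  have hβk : (0 : ℝ) < ((Fintype.card α : ℝ) ^ 2) ^ k := by positivity
  obtain ⟨M, hM⟩ := ZO.ratio (fun m => Q.A (2 * m)) ((Fintype.card α : ℝ) ^ 2)
    (Fintype.card α ^ 2) hβ (fun m => lt_of_lt_of_le one_pos (Q.one_le_A hu hv hvu (2 * m)))
    (fun m => by
      have h1 := Q.cs_a (lin m) (lin (m + 2))
      rw [Q.a_eq_A, Q.a_eq_A, Q.a_eq_A, card_L, card_L] at h1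
      have e1 : m + (m + 2) = 2 * (m + 1) := by ring
      have e2 : m + m = 2 * m := by ring
      have e3 : m + 2 + (m + 2) = 2 * (m + 2) := by ring
      rw [e1, e2, e3] at h1
      exact h1)
    (fun m => by
      have h1 := lowA Q hQ hnil m
      rw [← pow_mul]
      exact h1)
    (fun m => by
      rw [← pow_mul]
      exact Q.A_le (2 * m)) k (div_pos hε hβk)
  refine ⟨M, fun m hm => ?_⟩
  have h1 : (1 - ε / ((Fintype.card α : ℝ) ^ 2) ^ k) * ((Fintype.card α : ℝ) ^ 2) ^ k *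
      Q.A (2 * m) ≤ Q.A (2 * (m + k)) := hM m hm
  have h2 : (1 - ε / ((Fintype.card α : ℝ) ^ 2) ^ k) * ((Fintype.card α : ℝ) ^ 2) ^ k =
      ((Fintype.card α : ℝ) ^ 2) ^ k - ε := by
    rw [sub_mul, one_mul, div_mul_cancel₀ _ hβk.ne']
  rw [h2, add_comm m k] at h1
  linarith

theorem Perf.nilBelow (hQ : Q.Perf) (M : ℕ) : Q.NilBelow M := by
  intro S _ _ s _ x hx
  rw [hQ.N_bot s s, Submodule.mem_bot] at hx
  rw [hx]
  exact IsNilpotent.zero

theorem Perf.A_eq_h (hQ : Q.Perf) (n : ℕ) : Q.A n = Q.h n := hQ.a_eq Shp.e (lin n)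

/-- The density law for a perfect system. -/
theorem Perf.density (hQ : Q.Perf) (hperm : Q.HasPerm)
    {u : Matrix (Unit → α) (Empty → α) K} {v : Matrix (Empty → α) (Unit → α) K}
    (hu : u ∈ Q.P Shp.e Shp.o) (hv : v ∈ Q.P Shp.o Shp.e) (hvu : v * u = 1) (F : Fam Q) :
    ((∃ k : ℕ, 1 ≤ k ∧ Tendsto (fun m => (finrank K (F.B (lin (2 * m))) : ℝ) / Q.A (2 * m)) atTop
        (𝓝 (k : ℝ))) ∨
      Tendsto (fun m => (finrank K (F.B (lin (2 * m))) : ℝ) / Q.A (2 * m)) atTop atTop) ∧
      (Tendsto (fun m => (finrank K (F.B (lin (2 * m))) : ℝ) / Q.A (2 * m)) atTop (𝓝 1) →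
        ∀ m, (finrank K (F.B (lin (2 * m))) : ℝ) = Q.A (2 * m)) := by
  have hpos : ∀ n, 0 < Q.A n := fun n => lt_of_lt_of_le one_pos (Q.one_le_A hu hv hvu n)
  have hpl : ∀ m : ℕ, Q.Pl ((lin m).p (lin m)) (lin (2 * m)) := by
    intro m
    have h := Q.Pl_lin_add m m
    rwa [← two_mul] at h
  have hfr : ∀ m : ℕ, finrank K (F.B ((lin m).p (lin m))) = finrank K (F.B (lin (2 * m))) :=
    fun m => F.finrank_eq_of_Pl (hpl m)
  have ha : ∀ m : ℕ, Q.a (lin m) (lin m) = Q.A (2 * m) := by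
    intro m
    rw [Q.a_eq_A, card_L, ← two_mul]
  choose r N hrN using fun m : ℕ => hQ.aint (F.stb ((lin m).p (lin m)))
  refine lim_of_bounds (fun m => Q.A (2 * m)) (fun m => (finrank K (F.B (lin (2 * m))) : ℝ))
    ((Fintype.card α : ℝ) ^ 2) (fun m => hpos _) (fun m => ?_)
    (fun k ε hε => ratio_law hperm hQ.nilBelow hu hv hvu k hε) r N (fun m => ?_) (fun k m => ?_)
  · rw [hQ.A_eq_h]
    exact F.h_le (2 * m)
  · have h1 := (hrN m (L m) (lin m) (by rw [ha]; exact hpos _)).1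
    rw [act_self (F.stb _), hfr, ha] at h1
    exact h1
  · have h1 := (hrN k (L m) (lin m) (by rw [ha]; exact hpos _)).2
    have h2 : (finrank K (Q.act ((lin k).p (lin k)) ((lin m).p (lin m))
        (F.B ((lin k).p (lin k)))) : ℝ) ≤ finrank K (F.B (lin (2 * m))) := by
      rw [← hfr]
      exact_mod_cast Submodule.finrank_mono (F.act_le _ _)
    have h3 : Fintype.card (L k ⊕ L k) = 2 * k := by
      rw [Fintype.card_sum, card_L, two_mul]
    rw [h3, ha, card_L] at h1
    have e1 : 2 * k + 2 * m = 2 * (k + m) := by ring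
    rw [e1, pow_mul] at h1
    exact h1.trans h2

/-- If the dimensions agree for the even powers, then the spaces agree for all powers. -/
theorem Fam_eq_of_even (F : Fam Q)
    {u : Matrix (Unit → α) (Empty → α) K} {v : Matrix (Empty → α) (Unit → α) K}
    (hu : u ∈ Q.P Shp.e Shp.o) (hv : v ∈ Q.P Shp.o Shp.e) (hvu : v * u = 1)
    (h : ∀ m, finrank K (F.B (lin (2 * m))) ≤ finrank K (Q.P Shp.e (lin (2 * m)))) (n : ℕ) :
    F.B (lin n) = Q.P Shp.e (lin n) := by
  have heven : ∀ m, F.B (lin (2 * m)) = Q.P Shp.e (lin (2 * m)) := fun m =>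
    (Submodule.eq_of_le_of_finrank_le (F.le (lin (2 * m))) (h m)).symm
  have hstep : ∀ n, F.B (lin (n + 1)) = Q.P Shp.e (lin (n + 1)) →
      F.B (lin n) = Q.P Shp.e (lin n) := by
    intro n hn
    refine le_antisymm ?_ (F.le (lin n))
    intro y hy
    have hMu : kr (1 : Matrix (L n → α) (L n → α) K) u * pm α K (Equiv.sumEmpty (L n) Empty).symm ∈
        Q.P (lin n) ((lin n).p Shp.o) :=
      Q.mul_mem (Q.kr_mem (Q.one_mem (lin n)) hu) (Q.runit_symm_mem (lin n))
    have hMv : pm α K (Equiv.sumEmpty (L n) Empty) * kr (1 : Matrix (L n → α) (L n → α) K) v ∈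
        Q.P ((lin n).p Shp.o) (lin n) :=
      Q.mul_mem (Q.runit_mem (lin n)) (Q.kr_mem (Q.one_mem (lin n)) hv)
    have h1 : (kr (1 : Matrix (L n → α) (L n → α) K) u *
        pm α K (Equiv.sumEmpty (L n) Empty).symm) * y ∈ Q.P Shp.e (lin (n + 1)) := by
      rw [← hn]
      exact F.mul_mem hMu hy
    have h2 := Q.mul_mem hMv h1
    have h3 : (pm α K (Equiv.sumEmpty (L n) Empty) * kr (1 : Matrix (L n → α) (L n → α) K) v) *
        ((kr (1 : Matrix (L n → α) (L n → α) K) u *
          pm α K (Equiv.sumEmpty (L n) Empty).symm) * y) = y := by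
      have h4 : pm α K (Equiv.sumEmpty (L n) Empty) * pm α K (Equiv.sumEmpty (L n) Empty).symm =
          (1 : Matrix (L n → α) (L n → α) K) := by
        have := pm_symm_mul (α := α) (K := K) (Equiv.sumEmpty (L n) Empty).symm
        rwa [Equiv.symm_symm] at this
      calc _ = pm α K (Equiv.sumEmpty (L n) Empty) *
            (kr (1 : Matrix (L n → α) (L n → α) K) v *
              kr (1 : Matrix (L n → α) (L n → α) K) u) *
                pm α K (Equiv.sumEmpty (L n) Empty).symm * y := by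
            simp only [Matrix.mul_assoc]
        _ = y := by
            rw [kr_mul, Matrix.mul_one, hvu, kr_one, Matrix.mul_one, h4, Matrix.one_mul]
    rwa [h3] at h2
  rcases Nat.even_or_odd' n with ⟨m, rfl | rfl⟩
  · exact heven m
  · refine hstep _ ?_
    have h1 := heven (m + 1)
    have e : 2 * (m + 1) = 2 * m + 1 + 1 := by ring
    rwa [e] at h1

end SSys

end ZS
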